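import Pool.Agent.Lib.Forcing.Defs

/-!
The notions of the problem, written out inside a structure `(M, E)`; `w` is always `ω` of `M`.
-/

namespace Pool.Agent.MP_0fb2ec_lc

open Pool.Agent.Lib.Forcing

universe u

variable {M : Type u} (E : M → M → Prop)

/-- `s ∈ 2^A`, where `2 = {∅, {∅}}`. -/
def Bin (A s : M) : Prop := Fn E A (fun _ y => Emp E y ∨ ∃ e, Emp E e ∧ Suc E e y) s

/-- `x` and `y` agree on `n`. -/
def Agr (x y n : M) : Prop := ∀ k, E k n → ∀ v, Ap E x k v ↔ Ap E y k v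

/-- `C` is a closed subset of `2^ω` of measure zero: for every `m` there is `n` with
`|C↾n × m| ≤ |2^n|`, where `C↾n` is the set of restrictions to `n` of points of `C`. -/
def ClNull (w C : M) : Prop :=
  (∀ x, E x C → Bin E w x) ∧
  (∀ x, Bin E w x → (∀ n, E n w → ∃ y, E y C ∧ Agr E x y n) → E x C) ∧
  ∀ m, E m w → ∃ n, E n w ∧
    Le E (fun p => ∃ s t, Pr E s t p ∧ (Bin E n s ∧ ∃ x, E x C ∧ Agr E x s n) ∧ E t m) (Bin E n)

/-- `X ∈ 𝓔`: `X` is covered by an `ω`-sequence of closed null sets. -/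
def InE (w X : M) : Prop :=
  ∃ C, Fn E w (fun _ c => ClNull E w c) C ∧ ∀ x, E x X → ∃ k c, Ap E C k c ∧ E x c

/-- `s ∈ ∏_{k ∈ A} b(k)`. -/
def Prd (A b s : M) : Prop := Fn E A (fun k y => ∃ v, Ap E b k v ∧ E y v) s

/-- `b : ω → ω \ {0}` and `∑ 1 / b(k) = ∞`: for every `m` there is `n` with
`|m × ∏_{j<n} b(j)| ≤ |{(k, s) : s ∈ ∏_{j<n} b(j), s(k) = 0}|`, that is `m ≤ ∑_{k<n} 1 / b(k)`. -/
def Dvg (w b : M) : Prop :=
  Fn E w (fun _ y => E y w ∧ ¬ Emp E y) b ∧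
  ∀ m, E m w → ∃ n, E n w ∧
    Le E (fun p => ∃ t s, Pr E t s p ∧ E t m ∧ Prd E n b s)
      (fun q => ∃ k s, Pr E k s q ∧ Prd E n b s ∧ ∃ e, Emp E e ∧ Ap E s k e)

/-- `i : ω → ω` is strictly increasing with `i(0) = 0`; it codes the partition of `ω` into the
intervals `I_n = [i(n), i(n+1))`. -/
def Part (w i : M) : Prop :=
  Fn E w (fun _ y => E y w) i ∧ (∀ e, Emp E e → Ap E i e e) ∧
  ∀ n n' a a', Suc E n n' → Ap E i n a → Ap E i n' a' → E a a'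

/-- `f ⊏ (I, h)`: for all but finitely many `n` there is `k ∈ I_n` with `f(k) = h(k)`. -/
def Mat (w f i h : M) : Prop :=
  ∃ N, E N w ∧ ∀ n, E n w → ¬ E n N → ∀ n' a a', Suc E n n' → Ap E i n a → Ap E i n' a' →
    ∃ k, E k a' ∧ ¬ E k a ∧ ∃ v, Ap E f k v ∧ Ap E h k v

end Pool.Agent.MP_0fb2ec_lc
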